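import Pool.Agent.N990.RU.Stm

/-!
# RU/FIN: the finite volume Gibbs distributions are consistent (edge dependent couplings)

Adapted from `Pool/Agent/N415/RT/FIN.lean` (helper415).
-/

set_option autoImplicit false

open MeasureTheory Finset
open Pool.Agent.N988.EA Pool.Agent.N990.RU

namespace Pool.Agent.N409.RU

noncomputable section

/-- restriction to the half `q` -/
def rs (n : ℕ) (q : Fin 2 × Bool) (σ : Vert 2 (n + 1) → Ang) : Vert 2 n → Ang :=
  fun y => σ (Sum.inr (q.1, q.2, y) : Vert 2 (n + 1))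

/-- the ends of the half `q` -/
def te (n : ℕ) (q : Fin 2 × Bool) (τ : Bool → Ang) (σ : Vert 2 (n + 1) → Ang) : Bool → Ang :=
  fun t => (Sum.elim τ σ : Pt 2 (n + 1) → Ang) (emb q.1 q.2 (.inl t))

/-- the couplings of the half `q` -/
def hc (n : ℕ) (J : Cpl (n + 1)) (q : Fin 2 × Bool) : Cpl n := fun e => J (q.1, q.2, e)

/-- the other terms of the action -/
def Rr (n : ℕ) (J : Cpl (n + 1)) (q : Fin 2 × Bool) (τ : Bool → Ang) (σ : Vert 2 (n + 1) → Ang) : ℝ :=
  ∑ ih ∈ (univ : Finset (Fin 2 × Bool)).erase q,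
    Pool.Agent.N990.RU.act n (hc n J ih) ((Sum.elim τ σ : Pt 2 (n + 1) → Ang) ∘ emb ih.1 ih.2)

theorem upd_inl (n : ℕ) (q : Fin 2 × Bool) (σ : Vert 2 (n + 1) → Ang) (σ' : Vert 2 n → Ang) (i : Fin 2) :
    upd n q σ σ' (Sum.inl i : Vert 2 (n + 1)) = σ (Sum.inl i : Vert 2 (n + 1)) := rfl

theorem upd_inr (n : ℕ) (q : Fin 2 × Bool) (σ : Vert 2 (n + 1) → Ang) (σ' : Vert 2 n → Ang) (i : Fin 2) (h : Bool)
    (y : Vert 2 n) : upd n q σ σ' (Sum.inr (i, h, y) : Vert 2 (n + 1))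
      = if (i, h) = q then σ' y else σ (Sum.inr (i, h, y) : Vert 2 (n + 1)) := rfl

theorem act_sum (n : ℕ) (J : Cpl (n + 1)) (θ : Pt 2 (n + 1) → Ang) :
    Pool.Agent.N990.RU.act (n + 1) J θ = ∑ ih : Fin 2 × Bool, Pool.Agent.N990.RU.act n (hc n J ih) (θ ∘ emb ih.1 ih.2) := by
  unfold Pool.Agent.N990.RU.act
  show ∑ e : Fin 2 × Bool × Edge 2 n, (J e).1 * cs (θ (emb e.1 e.2.1 (bd n e.2.2 false)) -
    θ (emb e.1 e.2.1 (bd n e.2.2 true)) - (J e).2) = _
  rw [Fintype.sum_prod_type, Fintype.sum_prod_type]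
  refine sum_congr rfl fun i _ => ?_
  rw [Fintype.sum_prod_type]
  rfl

theorem elim_emb (n : ℕ) (q : Fin 2 × Bool) (τ : Bool → Ang) (σ : Vert 2 (n + 1) → Ang) :
    (Sum.elim τ σ : Pt 2 (n + 1) → Ang) ∘ emb q.1 q.2 = Sum.elim (te n q τ σ) (rs n q σ) := by
  funext x
  rcases x with t | y
  · rfl
  · rfl

theorem act_split (n : ℕ) (J : Cpl (n + 1)) (q : Fin 2 × Bool) (τ : Bool → Ang) (σ : Vert 2 (n + 1) → Ang) :
    Pool.Agent.N990.RU.act (n + 1) J (Sum.elim τ σ)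
      = Pool.Agent.N990.RU.act n (hc n J q) (Sum.elim (te n q τ σ) (rs n q σ)) + Rr n J q τ σ := by
  rw [act_sum, ← add_sum_erase _ _ (mem_univ q), elim_emb]
  rfl

theorem te_upd (n : ℕ) (q : Fin 2 × Bool) (τ : Bool → Ang) (σ : Vert 2 (n + 1) → Ang) (σ' : Vert 2 n → Ang) :
    te n q τ (upd n q σ σ') = te n q τ σ := by
  funext t
  unfold te
  simp only [emb]
  by_cases h : t = q.2
  · rw [if_pos h]; rfl
  · rw [if_neg h]; rfl

theorem rs_upd (n : ℕ) (q : Fin 2 × Bool) (σ : Vert 2 (n + 1) → Ang) (σ' : Vert 2 n → Ang) :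
    rs n q (upd n q σ σ') = σ' := by
  funext y
  unfold rs
  rw [upd_inr, if_pos rfl]

theorem upd_upd (n : ℕ) (q : Fin 2 × Bool) (σ : Vert 2 (n + 1) → Ang) (σ' : Vert 2 n → Ang) :
    upd n q (upd n q σ σ') (rs n q σ) = σ := by
  funext x
  rcases x with i | ⟨i, h, y⟩
  · rfl
  · show upd n q (upd n q σ σ') (rs n q σ) (Sum.inr (i, h, y) : Vert 2 (n + 1)) = _
    rw [upd_inr]
    by_cases hq : (i, h) = q
    · rw [if_pos hq]; subst hq; rfl
    · rw [if_neg hq, upd_inr, if_neg hq]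

theorem Rr_upd (n : ℕ) (J : Cpl (n + 1)) (q : Fin 2 × Bool) (τ : Bool → Ang) (σ : Vert 2 (n + 1) → Ang)
    (σ' : Vert 2 n → Ang) : Rr n J q τ (upd n q σ σ') = Rr n J q τ σ := by
  unfold Rr
  refine sum_congr rfl fun ih hih => ?_
  have hne : (ih.1, ih.2) ≠ q := (mem_erase.mp hih).1
  congr 1
  funext x
  rcases x with t | y
  · show (Sum.elim τ (upd n q σ σ') : Pt 2 (n + 1) → Ang) (emb ih.1 ih.2 (.inl t))
      = (Sum.elim τ σ : Pt 2 (n + 1) → Ang) (emb ih.1 ih.2 (.inl t))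
    simp only [emb]
    by_cases h : t = ih.2
    · rw [if_pos h]; rfl
    · rw [if_neg h]; rfl
  · show upd n q σ σ' (Sum.inr (ih.1, ih.2, y) : Vert 2 (n + 1)) = σ (Sum.inr (ih.1, ih.2, y) : Vert 2 (n + 1))
    rw [upd_inr, if_neg hne]

/-- exchange of the half `q` -/
def sgf (n : ℕ) (q : Fin 2 × Bool) : Vert 2 (n + 1) ⊕ Vert 2 n → Vert 2 (n + 1) ⊕ Vert 2 n :=
  Sum.elim (fun x => Sum.elim (fun i : Fin 2 => Sum.inl (Sum.inl i : Vert 2 (n + 1)))
      (fun y : Fin 2 × Bool × Vert 2 n => if (y.1, y.2.1) = q then Sum.inr y.2.2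
        else Sum.inl (Sum.inr y : Vert 2 (n + 1))) x)
    (fun y => Sum.inl (Sum.inr (q.1, q.2, y) : Vert 2 (n + 1)))

theorem sgf_sgf (n : ℕ) (q : Fin 2 × Bool) (x : Vert 2 (n + 1) ⊕ Vert 2 n) : sgf n q (sgf n q x) = x := by
  rcases x with (i | ⟨i, h, y⟩) | y
  · rfl
  · by_cases hq : (i, h) = q
    · have e1 : sgf n q (Sum.inl (Sum.inr (i, h, y) : Vert 2 (n + 1))) = Sum.inr y := by
        show (if (i, h) = q then _ else _) = _
        rw [if_pos hq]
      show sgf n q (sgf n q (Sum.inl (Sum.inr (i, h, y) : Vert 2 (n + 1)))) = _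
      rw [e1]
      subst hq
      rfl
    · have e1 : sgf n q (Sum.inl (Sum.inr (i, h, y) : Vert 2 (n + 1))) = Sum.inl (Sum.inr (i, h, y) : Vert 2 (n + 1)) := by
        show (if (i, h) = q then _ else _) = _
        rw [if_neg hq]
        rfl
      exact (congrArg (sgf n q) e1).trans e1
  · show (if (q.1, q.2) = q then _ else _) = _
    rw [if_pos rfl]

/-- exchange of the half `q` as a permutation -/
def sgp (n : ℕ) (q : Fin 2 × Bool) : Equiv.Perm (Vert 2 (n + 1) ⊕ Vert 2 n) :=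
  ⟨sgf n q, sgf n q, sgf_sgf n q, sgf_sgf n q⟩

/-- the map `(σ, σ') ↦ (upd n q σ σ', rs n q σ)` -/
def Ph (n : ℕ) (q : Fin 2 × Bool) : ((Vert 2 (n + 1) → Ang) × (Vert 2 n → Ang)) ≃ᵐ
    ((Vert 2 (n + 1) → Ang) × (Vert 2 n → Ang)) :=
  (MeasurableEquiv.sumPiEquivProdPi (fun _ : Vert 2 (n + 1) ⊕ Vert 2 n => Ang)).symm.trans
    ((MeasurableEquiv.piCongrLeft (fun _ : Vert 2 (n + 1) ⊕ Vert 2 n => Ang) (sgp n q)).trans
      (MeasurableEquiv.sumPiEquivProdPi (fun _ : Vert 2 (n + 1) ⊕ Vert 2 n => Ang)))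

theorem Ph_apply (n : ℕ) (q : Fin 2 × Bool) (z : (Vert 2 (n + 1) → Ang) × (Vert 2 n → Ang)) :
    Ph n q z = (upd n q z.1 z.2, rs n q z.1) := by
  obtain ⟨σ, σ'⟩ := z
  have hpc : ∀ (g : Vert 2 (n + 1) ⊕ Vert 2 n → Ang) (x : Vert 2 (n + 1) ⊕ Vert 2 n),
      (MeasurableEquiv.piCongrLeft (fun _ : Vert 2 (n + 1) ⊕ Vert 2 n => Ang) (sgp n q)) g x = g (sgf n q x) := by
    intro g x
    have h1 := Equiv.piCongrLeft_apply_apply (P := fun _ : Vert 2 (n + 1) ⊕ Vert 2 n => Ang) (e := sgp n q) g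
      (sgf n q x)
    have h2 : (sgp n q) (sgf n q x) = x := sgf_sgf n q x
    rw [h2] at h1
    exact h1
  apply Prod.ext
  · funext x
    show (MeasurableEquiv.piCongrLeft (fun _ : Vert 2 (n + 1) ⊕ Vert 2 n => Ang) (sgp n q))
      ((MeasurableEquiv.sumPiEquivProdPi (fun _ : Vert 2 (n + 1) ⊕ Vert 2 n => Ang)).symm (σ, σ')) (Sum.inl x)
        = upd n q σ σ' x
    rw [hpc]
    rcases x with i | ⟨i, h, y⟩
    · rfl
    · show (MeasurableEquiv.sumPiEquivProdPi (fun _ : Vert 2 (n + 1) ⊕ Vert 2 n => Ang)).symm (σ, σ')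
        (if (i, h) = q then Sum.inr y else Sum.inl (Sum.inr (i, h, y) : Vert 2 (n + 1)))
        = upd n q σ σ' (Sum.inr (i, h, y) : Vert 2 (n + 1))
      rw [upd_inr]
      by_cases hq : (i, h) = q
      · rw [if_pos hq, if_pos hq]; rfl
      · rw [if_neg hq, if_neg hq]; rfl
  · funext y
    show (MeasurableEquiv.piCongrLeft (fun _ : Vert 2 (n + 1) ⊕ Vert 2 n => Ang) (sgp n q))
      ((MeasurableEquiv.sumPiEquivProdPi (fun _ : Vert 2 (n + 1) ⊕ Vert 2 n => Ang)).symm (σ, σ')) (Sum.inr y)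
        = rs n q σ y
    rw [hpc]
    rfl

theorem Ph_mp (n : ℕ) (q : Fin 2 × Bool) :
    MeasurePreserving (Ph n q) ((refm (n + 1)).prod (refm n)) ((refm (n + 1)).prod (refm n)) := by
  have h1 := measurePreserving_sumPiEquivProdPi_symm (X := fun _ : Vert 2 (n + 1) ⊕ Vert 2 n => Ang) (fun _ => ha)
  have h2 := measurePreserving_piCongrLeft (α := fun _ : Vert 2 (n + 1) ⊕ Vert 2 n => Ang) (fun _ => ha) (sgp n q)
  have h3 := measurePreserving_sumPiEquivProdPi (X := fun _ : Vert 2 (n + 1) ⊕ Vert 2 n => Ang) (fun _ => ha)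
  exact (h3.comp h2).comp h1

theorem cont_te (n : ℕ) (q : Fin 2 × Bool) (τ : Bool → Ang) : Continuous (te n q τ) := by
  refine continuous_pi fun t => ?_
  unfold te
  rcases (emb q.1 q.2 (.inl t) : Pt 2 (n + 1)) with s | x
  · exact continuous_const
  · exact continuous_apply x

theorem cont_rs (n : ℕ) (q : Fin 2 × Bool) : Continuous (rs n q) :=
  continuous_pi fun y => continuous_apply (Sum.inr (q.1, q.2, y) : Vert 2 (n + 1))

theorem cont_elim (n : ℕ) {X : Type} [TopologicalSpace X] {f : X → Bool → Ang} {g : X → Vert 2 n → Ang}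
    (hf : Continuous f) (hg : Continuous g) : Continuous fun x => (Sum.elim (f x) (g x) : Pt 2 n → Ang) := by
  refine continuous_pi fun z => ?_
  rcases z with t | y
  · exact (continuous_apply t).comp hf
  · exact (continuous_apply y).comp hg

theorem t_fin (h1 : Pool.Agent.N990.RU.S_BAS) : Pool.Agent.N990.RU.S_FIN := by
  intro n J q τ G hG hGb
  obtain ⟨CG, hCG⟩ := hGb
  obtain ⟨hcA, ⟨CA, hCA⟩, ⟨hZc, hZp⟩, _, hI, _⟩ := h1 (n + 1) J
  obtain ⟨hca, ⟨Ca, hCa⟩, ⟨hzc, hzp⟩, _, hi, _⟩ := h1 n (hc n J q)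
  rw [hI, hI]
  congr 1
  change _ = ∫ σ, (∫ σ', G (upd n q σ σ') ∂(gib n (hc n J q) fun t =>
      (Sum.elim τ σ : Pt 2 (n + 1) → Ang) (emb q.1 q.2 (.inl t)))) *
        Real.exp (Pool.Agent.N990.RU.act (n + 1) J (Sum.elim τ σ)) ∂(refm (n + 1))
  simp only [hi]
  -- lower bound of the partition function of the half
  obtain ⟨τ0, _, hτ0⟩ := isCompact_univ.exists_isMinOn (s := (Set.univ : Set (Bool → Ang))) ⟨fun _ => 0, trivial⟩
    hzc.continuousOn
  set z0 : ℝ := Zf n (hc n J q) τ0 with hz0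
  have hz0p : 0 < z0 := hzp τ0
  have hz : ∀ τ', z0 ≤ Zf n (hc n J q) τ' := fun τ' => hτ0 (Set.mem_univ τ')
  set te' := te n q τ with hte
  set K : (Vert 2 (n + 1) → Ang) × (Vert 2 n → Ang) → ℝ := fun z =>
    G z.1 * Real.exp (Pool.Agent.N990.RU.act (n + 1) J (Sum.elim τ z.1)) *
      (Real.exp (Pool.Agent.N990.RU.act n (hc n J q) (Sum.elim (te' z.1) z.2)) / Zf n (hc n J q) (te' z.1)) with hK
  have hKm : Measurable K := by
    have m1 : Measurable fun z : (Vert 2 (n + 1) → Ang) × (Vert 2 n → Ang) => G z.1 := hG.comp measurable_fst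
    have m2 : Measurable fun z : (Vert 2 (n + 1) → Ang) × (Vert 2 n → Ang) =>
        Real.exp (Pool.Agent.N990.RU.act (n + 1) J (Sum.elim τ z.1)) :=
      (Real.continuous_exp.comp (hcA.comp (cont_elim (n + 1) continuous_const continuous_fst))).measurable
    have m3 : Measurable fun z : (Vert 2 (n + 1) → Ang) × (Vert 2 n → Ang) =>
        Real.exp (Pool.Agent.N990.RU.act n (hc n J q) (Sum.elim (te' z.1) z.2)) :=
      (Real.continuous_exp.comp (hca.comp (cont_elim n ((cont_te n q τ).comp continuous_fst)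
        continuous_snd))).measurable
    have m4 : Measurable fun z : (Vert 2 (n + 1) → Ang) × (Vert 2 n → Ang) => Zf n (hc n J q) (te' z.1) :=
      (hzc.comp ((cont_te n q τ).comp continuous_fst)).measurable
    exact (m1.mul m2).mul (m3.div m4)
  have hKb : ∀ z, ‖K z‖ ≤ CG * Real.exp CA * (Real.exp Ca / z0) := by
    intro z
    have b1 := hCG z.1
    have b2 : Real.exp (Pool.Agent.N990.RU.act (n + 1) J (Sum.elim τ z.1)) ≤ Real.exp CA :=
      Real.exp_le_exp.mpr ((le_abs_self _).trans (hCA _))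
    have b3 : Real.exp (Pool.Agent.N990.RU.act n (hc n J q) (Sum.elim (te' z.1) z.2)) ≤ Real.exp Ca :=
      Real.exp_le_exp.mpr ((le_abs_self _).trans (hCa _))
    have b4 := hz (te' z.1)
    have hCG0 : 0 ≤ CG := (abs_nonneg _).trans b1
    rw [Real.norm_eq_abs, hK]
    simp only
    rw [abs_mul, abs_mul, abs_of_pos (Real.exp_pos _), abs_div, abs_of_pos (Real.exp_pos _),
      abs_of_pos (hz0p.trans_le b4)]
    refine mul_le_mul (mul_le_mul b1 b2 (Real.exp_pos _).le hCG0) ?_ (by have := hz0p.trans_le b4; positivity)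
      (by positivity)
    exact div_le_div₀ (Real.exp_pos _).le b3 hz0p b4
  have hKi : Integrable K ((refm (n + 1)).prod (refm n)) :=
    Integrable.of_bound hKm.aestronglyMeasurable _ (Filter.Eventually.of_forall hKb)
  have hPi : Integrable (fun z => K (Ph n q z)) ((refm (n + 1)).prod (refm n)) :=
    Integrable.of_bound (hKm.comp (Ph n q).measurable).aestronglyMeasurable _
      (Filter.Eventually.of_forall fun z => hKb _)
  have hmp := (Ph_mp n q).integral_comp' (g := K)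
  rw [integral_prod _ hKi, integral_prod _ hPi] at hmp
  -- the left side
  have hL : ∀ σ, ∫ σ', K (σ, σ') ∂(refm n) = G σ * Real.exp (Pool.Agent.N990.RU.act (n + 1) J (Sum.elim τ σ)) := by
    intro σ
    rw [hK]
    simp only
    rw [integral_const_mul, integral_div]
    have h2 : ∫ σ', Real.exp (Pool.Agent.N990.RU.act n (hc n J q) (Sum.elim (te' σ) σ')) ∂(refm n) = Zf n (hc n J q) (te' σ) := rfl
    rw [h2, div_self (hzp _).ne', mul_one]
  have hR : ∀ σ, ∫ σ', K (Ph n q (σ, σ')) ∂(refm n) =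
      (∫ σ', G (upd n q σ σ') * Real.exp (Pool.Agent.N990.RU.act n (hc n J q) (Sum.elim (te' σ) σ')) ∂(refm n)) /
        Zf n (hc n J q) (te' σ) * Real.exp (Pool.Agent.N990.RU.act (n + 1) J (Sum.elim τ σ)) := by
    intro σ
    rw [div_mul_eq_mul_div, mul_comm (∫ σ', G (upd n q σ σ') * _ ∂(refm n)), mul_div_assoc, ← integral_div,
      ← integral_const_mul]
    refine integral_congr_ae (Filter.Eventually.of_forall fun σ' => ?_)
    simp only [hK, Ph_apply]
    rw [act_split n J q τ (upd n q σ σ'), act_split n J q τ σ, hte, te_upd, rs_upd, Rr_upd, Real.exp_add, Real.exp_add]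
    ring
  simp only [hL, hR] at hmp
  rw [← hmp]
  rfl

end

end Pool.Agent.N409.RU
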